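import Pool.Agent.H5.StarFin2

set_option autoImplicit false

namespace Pool.Agent.Results.MP_a8a0a5_an.Excluded

/-- A separable infinite-dimensional Banach space with a star-finite covering by closed balls
has a non-separable dual and a norm that is not octahedral. -/
theorem result (E : Type) [NormedAddCommGroup E] [NormedSpace ℝ E] [CompleteSpace E]
    [TopologicalSpace.SeparableSpace E] (hE : ¬ FiniteDimensional ℝ E)
    (ι : Type) (c : ι → E) (r : ι → ℝ) (hr : ∀ i, 0 < r i)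
    (hcov : (⋃ i, Metric.closedBall (c i) (r i)) = Set.univ)
    (hstar : ∀ i, {j : ι |
      (Metric.closedBall (c i) (r i) ∩ Metric.closedBall (c j) (r j)).Nonempty}.Finite) :
    ¬ TopologicalSpace.SeparableSpace (StrongDual ℝ E) ∧
    ¬ (∀ F : Submodule ℝ E, FiniteDimensional ℝ F → ∀ ε : ℝ, 0 < ε →
        ∃ y : E, ‖y‖ = 1 ∧ ∀ x ∈ F, (1 - ε) * (‖x‖ + 1) ≤ ‖x + y‖) := by
  have hcov' : ∀ x, ∃ i, x ∈ Metric.closedBall (c i) (r i) := fun x =>
    Set.mem_iUnion.1 (hcov ▸ Set.mem_univ x)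
  refine ⟨?_, Pool.Agent.H5.StarFin.not_octahedral hE c r hr hcov' hstar⟩
  obtain ⟨k0, hk0, η, hη, t0, ht0, h⟩ := Pool.Agent.H5.StarFin.rough_piece hE c r hr hcov' hstar
  exact Pool.Agent.H5.StarFin.not_separable_dual hk0 hη ht0 h

end Pool.Agent.Results.MP_a8a0a5_an.Excluded
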